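import Pool.Agent.H28.EG.Final

set_option autoImplicit false

namespace Pool.Agent.Results.MP_5122c5_co.ExactThreshold

open Pool.Agent.H28.EG

/-- **The graphicality threshold, exactly, for all `k > s ≥ 1` and `1 ≤ d ≤ k - s`.**
For `(k,s,d) ≠ (2,1,1)` the least integer `N` such that every list of the class `L(k,s,d)` of length
at least `N` is graphic is `threshold k s d`; for `(k,s,d) = (2,1,1)` every list of the class is
graphic. -/
theorem result (k s d : ℕ) (hs : 1 ≤ s) (hsk : s < k) (hd : 1 ≤ d) (hdk : d ≤ k - s) :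
    (¬ (k = 2 ∧ s = 1 ∧ d = 1) →
      IsLeast {N : ℤ | ∀ n : ℕ, N ≤ n → ∀ a : Fin n → ℕ, InClass k s d n a → Graphic n a}
        (threshold k s d)) ∧
    ((k = 2 ∧ s = 1 ∧ d = 1) → ∀ (n : ℕ) (a : Fin n → ℕ), InClass k s d n a → Graphic n a) := by
  refine ⟨isLeast_threshold k s d hs hsk hd hdk, ?_⟩
  rintro ⟨rfl, rfl, rfl⟩ n a ha
  exact graphic_two_one_one n a ha

end Pool.Agent.Results.MP_5122c5_co.ExactThreshold
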